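import Mathlib

set_option autoImplicit false

namespace Pool.Agent.LAY8

theorem growth : ∀ s : ℕ, 6 ≤ s → 25 * (4 + s ^ 2) ^ 4 ≤ 4096 * 5 ^ s := by
  intro s hs
  induction s, hs using Nat.le_induction with
  | base => norm_num
  | succ s hs ih =>
    have h1 : 40 * (4 + (s + 1) ^ 2) ≤ 53 * (4 + s ^ 2) := by nlinarith
    have h2 : (40 * (4 + (s + 1) ^ 2)) ^ 4 ≤ (53 * (4 + s ^ 2)) ^ 4 := Nat.pow_le_pow_left h1 4
    rw [Nat.mul_pow, Nat.mul_pow] at h2
    have h3 : (4 + (s + 1) ^ 2) ^ 4 ≤ 5 * (4 + s ^ 2) ^ 4 := by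
      have : 40 ^ 4 * (4 + (s + 1) ^ 2) ^ 4 ≤ 40 ^ 4 * (5 * (4 + s ^ 2) ^ 4) := by
        calc 40 ^ 4 * (4 + (s + 1) ^ 2) ^ 4 ≤ 53 ^ 4 * (4 + s ^ 2) ^ 4 := h2
          _ ≤ (40 ^ 4 * 5) * (4 + s ^ 2) ^ 4 := Nat.mul_le_mul_right _ (by norm_num)
          _ = 40 ^ 4 * (5 * (4 + s ^ 2) ^ 4) := by ring
      exact Nat.le_of_mul_le_mul_left this (by norm_num)
    calc 25 * (4 + (s + 1) ^ 2) ^ 4 ≤ 25 * (5 * (4 + s ^ 2) ^ 4) := Nat.mul_le_mul_left _ h3
      _ = 5 * (25 * (4 + s ^ 2) ^ 4) := by ring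
      _ ≤ 5 * (4096 * 5 ^ s) := Nat.mul_le_mul_left _ ih
      _ = 4096 * 5 ^ (s + 1) := by ring

theorem block_large (a b : ℕ) (h : 6 ≤ a + b) : 25 * (1 + a * b) ^ 4 ≤ 16 * 5 ^ (a + b) := by
  have h1 : 4 * (1 + a * b) ≤ 4 + (a + b) ^ 2 := by
    zify
    nlinarith [sq_nonneg ((a : ℤ) - b)]
  have h2 := Nat.pow_le_pow_left h1 4
  rw [Nat.mul_pow] at h2
  have h3 := growth (a + b) h
  have h4 : 25 * (4 ^ 4 * (1 + a * b) ^ 4) ≤ 4096 * 5 ^ (a + b) :=
    le_trans (Nat.mul_le_mul_left _ h2) h3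
  have h5 : 256 * (25 * (1 + a * b) ^ 4) ≤ 256 * (16 * 5 ^ (a + b)) := by
    calc 256 * (25 * (1 + a * b) ^ 4) = 25 * (4 ^ 4 * (1 + a * b) ^ 4) := by ring
      _ ≤ 4096 * 5 ^ (a + b) := h4
      _ = 256 * (16 * 5 ^ (a + b)) := by ring
  exact Nat.le_of_mul_le_mul_left h5 (by norm_num)

theorem block1 (a b : ℕ) : (1 + a * b) ^ 4 ≤ 5 ^ (a + b) := by
  rcases Nat.lt_or_ge (a + b) 6 with h | h
  · have ha : a < 6 := by omega
    have hb : b < 6 := by omega
    interval_cases a <;> interval_cases b <;> omega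
  · have := block_large a b h
    omega

theorem block2 (a b : ℕ) (ho : a % 2 = 1 ∨ b % 2 = 1) :
    3125 * (1 + a * b) ^ 4 ≤ 2401 * 5 ^ (a + b) := by
  rcases Nat.lt_or_ge (a + b) 6 with h | h
  · have ha : a < 6 := by omega
    have hb : b < 6 := by omega
    interval_cases a <;> interval_cases b <;> omega
  · have := block_large a b h
    omega

theorem block3 (a b : ℕ) (ha1 : a % 2 = 1) (hb1 : b % 2 = 1) :
    25 * (1 + a * b) ^ 4 ≤ 16 * 5 ^ (a + b) := by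
  rcases Nat.lt_or_ge (a + b) 6 with h | h
  · have ha : a < 6 := by omega
    have hb : b < 6 := by omega
    interval_cases a <;> interval_cases b <;> omega
  · exact block_large a b h

/-- The three bounds for a product. -/
theorem list_bounds (L : List (ℕ × ℕ)) :
    ((L.map fun p => 1 + p.1 * p.2).prod ^ 4 ≤
      5 ^ ((L.map Prod.fst).sum + (L.map Prod.snd).sum)) ∧
    (((L.map Prod.fst).sum % 2 = 1 ∨ (L.map Prod.snd).sum % 2 = 1) →
      3125 * (L.map fun p => 1 + p.1 * p.2).prod ^ 4 ≤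
        2401 * 5 ^ ((L.map Prod.fst).sum + (L.map Prod.snd).sum)) ∧
    ((L.map Prod.fst).sum % 2 = 1 → (L.map Prod.snd).sum % 2 = 1 →
      25 * (L.map fun p => 1 + p.1 * p.2).prod ^ 4 ≤
        16 * 5 ^ ((L.map Prod.fst).sum + (L.map Prod.snd).sum)) := by
  induction L with
  | nil => simp
  | cons p L ih =>
    obtain ⟨a, b⟩ := p
    obtain ⟨i1, i2, i3⟩ := ih
    simp only [List.map_cons, List.prod_cons, List.sum_cons]
    set P := (L.map fun p => 1 + p.1 * p.2).prod with hP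
    set s := (L.map Prod.fst).sum with hs
    set t := (L.map Prod.snd).sum with ht
    have e : 5 ^ (a + s + (b + t)) = 5 ^ (a + b) * 5 ^ (s + t) := by
      rw [← pow_add]
      congr 1
      ring
    rw [e, Nat.mul_pow]
    have b1 := block1 a b
    refine ⟨Nat.mul_le_mul b1 i1, ?_, ?_⟩
    · intro h
      by_cases hab : a % 2 = 1 ∨ b % 2 = 1
      · have b2 := block2 a b hab
        calc 3125 * ((1 + a * b) ^ 4 * P ^ 4) = (3125 * (1 + a * b) ^ 4) * P ^ 4 := by ring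
          _ ≤ (2401 * 5 ^ (a + b)) * 5 ^ (s + t) := Nat.mul_le_mul b2 i1
          _ = 2401 * (5 ^ (a + b) * 5 ^ (s + t)) := by ring
      · have h' : s % 2 = 1 ∨ t % 2 = 1 := by omega
        have i2' := i2 h'
        calc 3125 * ((1 + a * b) ^ 4 * P ^ 4) = (1 + a * b) ^ 4 * (3125 * P ^ 4) := by ring
          _ ≤ 5 ^ (a + b) * (2401 * 5 ^ (s + t)) := Nat.mul_le_mul b1 i2'
          _ = 2401 * (5 ^ (a + b) * 5 ^ (s + t)) := by ring
    · intro h1 h2
      by_cases ha : a % 2 = 1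
      · by_cases hb : b % 2 = 1
        · have b3 := block3 a b ha hb
          calc 25 * ((1 + a * b) ^ 4 * P ^ 4) = (25 * (1 + a * b) ^ 4) * P ^ 4 := by ring
            _ ≤ (16 * 5 ^ (a + b)) * 5 ^ (s + t) := Nat.mul_le_mul b3 i1
            _ = 16 * (5 ^ (a + b) * 5 ^ (s + t)) := by ring
        · have b2 := block2 a b (Or.inl ha)
          have i2' := i2 (by omega)
          have h5 : 9765625 * ((1 + a * b) ^ 4 * P ^ 4) ≤
              5764801 * (5 ^ (a + b) * 5 ^ (s + t)) := by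
            calc 9765625 * ((1 + a * b) ^ 4 * P ^ 4)
                = (3125 * (1 + a * b) ^ 4) * (3125 * P ^ 4) := by ring
              _ ≤ (2401 * 5 ^ (a + b)) * (2401 * 5 ^ (s + t)) := Nat.mul_le_mul b2 i2'
              _ = 5764801 * (5 ^ (a + b) * 5 ^ (s + t)) := by ring
          omega
      · by_cases hb : b % 2 = 1
        · have b2 := block2 a b (Or.inr hb)
          have i2' := i2 (by omega)
          have h5 : 9765625 * ((1 + a * b) ^ 4 * P ^ 4) ≤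
              5764801 * (5 ^ (a + b) * 5 ^ (s + t)) := by
            calc 9765625 * ((1 + a * b) ^ 4 * P ^ 4)
                = (3125 * (1 + a * b) ^ 4) * (3125 * P ^ 4) := by ring
              _ ≤ (2401 * 5 ^ (a + b)) * (2401 * 5 ^ (s + t)) := Nat.mul_le_mul b2 i2'
              _ = 5764801 * (5 ^ (a + b) * 5 ^ (s + t)) := by ring
          omega
        · have i3' := i3 (by omega) (by omega)
          calc 25 * ((1 + a * b) ^ 4 * P ^ 4) = (1 + a * b) ^ 4 * (25 * P ^ 4) := by ring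
            _ ≤ 5 ^ (a + b) * (16 * 5 ^ (s + t)) := Nat.mul_le_mul b1 i3'
            _ = 16 * (5 ^ (a + b) * 5 ^ (s + t)) := by ring

theorem even_bound (L : List (ℕ × ℕ)) (k : ℕ) (h1 : (L.map Prod.fst).sum ≤ 2 * k)
    (h2 : (L.map Prod.snd).sum ≤ 2 * k) : (L.map fun p => 1 + p.1 * p.2).prod ≤ 5 ^ k := by
  have h := (list_bounds L).1
  have h3 : (L.map fun p => 1 + p.1 * p.2).prod ^ 4 ≤ (5 ^ k) ^ 4 := by
    refine le_trans h ?_
    rw [← pow_mul]
    exact Nat.pow_le_pow_right (by norm_num) (by omega)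
  exact (Nat.pow_le_pow_iff_left (by norm_num)).1 h3

theorem odd_bound (L : List (ℕ × ℕ)) (k : ℕ) (h1 : (L.map Prod.fst).sum ≤ 2 * k + 1)
    (h2 : (L.map Prod.snd).sum ≤ 2 * k + 1) :
    (L.map fun p => 1 + p.1 * p.2).prod ≤ 2 * 5 ^ k := by
  obtain ⟨i1, i2, i3⟩ := list_bounds L
  have h3 : (L.map fun p => 1 + p.1 * p.2).prod ^ 4 ≤ (2 * 5 ^ k) ^ 4 := by
    have e : (2 * 5 ^ k) ^ 4 = 16 * 5 ^ (4 * k) := by
      rw [Nat.mul_pow, ← pow_mul, mul_comm k 4]
    rw [e]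
    by_cases hc : (L.map Prod.fst).sum + (L.map Prod.snd).sum ≤ 4 * k + 1
    · calc (L.map fun p => 1 + p.1 * p.2).prod ^ 4
          ≤ 5 ^ ((L.map Prod.fst).sum + (L.map Prod.snd).sum) := i1
        _ ≤ 5 ^ (4 * k + 1) := Nat.pow_le_pow_right (by norm_num) hc
        _ = 5 * 5 ^ (4 * k) := by ring
        _ ≤ 16 * 5 ^ (4 * k) := Nat.mul_le_mul_right _ (by norm_num)
    · have e1 : (L.map Prod.fst).sum = 2 * k + 1 := by omega
      have e2 : (L.map Prod.snd).sum = 2 * k + 1 := by omega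
      have i3' := i3 (by omega) (by omega)
      rw [e1, e2] at i3'
      have e3 : 5 ^ (2 * k + 1 + (2 * k + 1)) = 25 * 5 ^ (4 * k) := by
        rw [show 2 * k + 1 + (2 * k + 1) = 4 * k + 2 by ring, pow_add]
        ring
      rw [e3] at i3'
      omega
  exact (Nat.pow_le_pow_iff_left (by norm_num)).1 h3

end Pool.Agent.LAY8
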