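import Mathlib

set_option autoImplicit false

namespace Pool.Agent.LAY8

open Finset

/-- Bessel inequality with weights. -/
theorem bessel {ι Ω : Type} [Fintype ι] [Fintype Ω] [DecidableEq ι] (w : Ω → ℝ) (X : ι → Ω → ℝ)
    (ω0 : Ω) (hw : ∀ ω, 0 ≤ w ω) (hw0 : w ω0 = 1) (hX : ∀ i, X i ω0 = 1)
    (ho : ∀ i j, i ≠ j → ∑ ω, w ω * X i ω * X j ω = 0) :
    ∑ i, 1 / ∑ ω, w ω * X i ω * X i ω ≤ 1 := by
  classical
  set D : ι → ℝ := fun i => ∑ ω, w ω * X i ω * X i ω with hD
  have hDpos : ∀ i, 1 ≤ D i := by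
    intro i
    have h1 : w ω0 * X i ω0 * X i ω0 ≤ ∑ ω, w ω * X i ω * X i ω :=
      Finset.single_le_sum (f := fun ω => w ω * X i ω * X i ω)
        (fun ω _ => by
          have := hw ω
          nlinarith [mul_self_nonneg (X i ω), mul_nonneg this (mul_self_nonneg (X i ω))])
        (Finset.mem_univ ω0)
    rw [hw0, hX i] at h1
    simpa [hD] using h1
  have hDne : ∀ i, D i ≠ 0 := fun i => by
    have := hDpos i
    linarith
  set S : ℝ := ∑ i, 1 / D i with hS
  have hSnn : 0 ≤ S := Finset.sum_nonneg fun i _ => by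
    have := hDpos i
    positivity
  have key : ∑ ω, w ω * (∑ i, X i ω / D i) ^ 2 = S := by
    have h1 : ∀ ω, w ω * (∑ i, X i ω / D i) ^ 2 =
        ∑ i, ∑ j, (w ω * X i ω * X j ω) / (D i * D j) := by
      intro ω
      rw [sq, Finset.sum_mul_sum, Finset.mul_sum]
      refine Finset.sum_congr rfl fun i _ => ?_
      rw [Finset.mul_sum]
      refine Finset.sum_congr rfl fun j _ => ?_
      field_simp
    rw [Finset.sum_congr rfl fun ω _ => h1 ω, Finset.sum_comm]
    refine Finset.sum_congr rfl fun i _ => ?_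
    rw [Finset.sum_comm, Finset.sum_eq_single i]
    · rw [← Finset.sum_div]
      have : ∑ ω, w ω * X i ω * X i ω = D i := rfl
      rw [this]
      have := hDne i
      field_simp
    · intro j _ hj
      rw [← Finset.sum_div, ho i j (Ne.symm hj), zero_div]
    · intro h
      exact absurd (Finset.mem_univ i) h
  have h2 : w ω0 * (∑ i, X i ω0 / D i) ^ 2 ≤ ∑ ω, w ω * (∑ i, X i ω / D i) ^ 2 :=
    Finset.single_le_sum (f := fun ω => w ω * (∑ i, X i ω / D i) ^ 2)
      (fun ω _ => mul_nonneg (hw ω) (sq_nonneg _)) (Finset.mem_univ ω0)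
  have h3 : ∑ i, X i ω0 / D i = S := by
    refine Finset.sum_congr rfl fun i _ => ?_
    rw [hX i]
  rw [hw0, h3, key] at h2
  by_contra hcon
  have : 1 < S := not_le.mp hcon
  nlinarith

/-- The algebraic identity for one colour. -/
theorem one_colour {α : Type} [Fintype α] (a b a' b' : α → ℝ) :
    ∑ o : Option (α × α), (o.elim (1 : ℝ) fun _ => 1 / 2) *
      (o.elim (1 : ℝ) fun p => a p.1 * b p.2 - a p.2 * b p.1) *
      (o.elim (1 : ℝ) fun p => a' p.1 * b' p.2 - a' p.2 * b' p.1) =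
    1 + (∑ x, a x * a' x) * (∑ y, b y * b' y) - (∑ x, a x * b' x) * (∑ y, b y * a' y) := by
  rw [Fintype.sum_option, Fintype.sum_prod_type]
  simp only [Option.elim]
  have h : ∀ x y, 1 / 2 * (a x * b y - a y * b x) * (a' x * b' y - a' y * b' x) =
      (1 / 2) * ((a x * a' x) * (b y * b' y)) + (1 / 2) * ((a y * a' y) * (b x * b' x))
      - (1 / 2) * ((a x * b' x) * (b y * a' y)) - (1 / 2) * ((a y * b' y) * (b x * a' x)) := by
    intro x y
    ring
  simp only [h]
  simp only [Finset.sum_sub_distrib, Finset.sum_add_distrib, ← Finset.mul_sum, ← Finset.sum_mul]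
  ring

/-- The Kraft type inequality for coloured systems, in terms of real valued functions. -/
theorem core {ι α κ : Type} [Fintype ι] [DecidableEq ι] [Fintype α] [Fintype κ] [DecidableEq κ]
    (a b : ι → κ → α → ℝ)
    (hd : ∀ i l, ∑ x, a i l x * b i l x = 0)
    (h : ∀ i j, i ≠ j → ∃ l, 1 + (∑ x, a i l x * a j l x) * (∑ y, b i l y * b j l y) -
      (∑ x, a i l x * b j l x) * (∑ y, b i l y * a j l y) = 0) :
    ∑ i, 1 / ∏ l, (1 + (∑ x, a i l x * a i l x) * (∑ y, b i l y * b i l y)) ≤ 1 := by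
  classical
  have hprod : ∀ i j, ∑ ω : κ → Option (α × α),
      (∏ l, ((ω l).elim (1 : ℝ) fun _ => 1 / 2)) *
      (∏ l, ((ω l).elim (1 : ℝ) fun p => a i l p.1 * b i l p.2 - a i l p.2 * b i l p.1)) *
      (∏ l, ((ω l).elim (1 : ℝ) fun p => a j l p.1 * b j l p.2 - a j l p.2 * b j l p.1)) =
      ∏ l, (1 + (∑ x, a i l x * a j l x) * (∑ y, b i l y * b j l y) -
        (∑ x, a i l x * b j l x) * (∑ y, b i l y * a j l y)) := by
    intro i j
    rw [← Finset.prod_congr rfl fun l _ => one_colour (a i l) (b i l) (a j l) (b j l)]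
    rw [Finset.prod_univ_sum]
    rw [Fintype.piFinset_univ]
    refine Finset.sum_congr rfl fun ω _ => ?_
    rw [Finset.prod_mul_distrib, Finset.prod_mul_distrib]
  have hb := bessel (ι := ι) (Ω := κ → Option (α × α))
    (fun ω => ∏ l, ((ω l).elim (1 : ℝ) fun _ => 1 / 2))
    (fun i ω => ∏ l, ((ω l).elim (1 : ℝ) fun p =>
      a i l p.1 * b i l p.2 - a i l p.2 * b i l p.1))
    (fun _ => none)
    (fun ω => Finset.prod_nonneg fun l _ => by
      rcases ω l with _ | p
      · simp
      · simp)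
    (by simp) (by intro i; simp)
    (by
      intro i j hij
      rw [hprod i j]
      obtain ⟨l, hl⟩ := h i j hij
      exact Finset.prod_eq_zero (Finset.mem_univ l) hl)
  refine le_trans (le_of_eq ?_) hb
  refine Finset.sum_congr rfl fun i _ => ?_
  rw [hprod i i]
  congr 1
  refine Finset.prod_congr rfl fun l _ => ?_
  rw [hd i l]
  ring

end Pool.Agent.LAY8
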