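import Mathlib

set_option autoImplicit false

namespace Pool.Agent.LAY8

/-- A 1-cross intersecting system of pairs of finite sets of naturals, indexed by `ι`. -/
def OneCross {ι : Type} (A B : ι → Finset ℕ) : Prop :=
  (∀ i, Disjoint (A i) (B i)) ∧ ∀ i j, i ≠ j → (A i ∩ B j).card = 1

/-- The colouring `c` of the elements is a layering of the system: for two different indices the
elements of `A i ∩ B j` and of `A j ∩ B i` have the same colour `l`, and no element of `A i ∩ A j`
has the colour `l`, or no element of `B i ∩ B j` has the colour `l`. -/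
def Layering {ι : Type} (A B : ι → Finset ℕ) (c : ℕ → ℕ) : Prop :=
  ∀ i j, i ≠ j → ∃ l, (∀ x ∈ A i ∩ B j, c x = l) ∧ (∀ x ∈ A j ∩ B i, c x = l) ∧
    ((∀ x ∈ A i ∩ A j, c x ≠ l) ∨ (∀ x ∈ B i ∩ B j, c x ≠ l))

/-- There is a layered `(a, b)`-restricted 1-cross intersecting system of size `m`. -/
def HasLayered (a b m : ℕ) : Prop :=
  ∃ (A B : Fin m → Finset ℕ) (c : ℕ → ℕ), OneCross A B ∧ Layering A B c ∧
    ∀ i, (A i).card ≤ a ∧ (B i).card ≤ b

end Pool.Agent.LAY8
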