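import Pool.Agent.LAY8.Defs

set_option autoImplicit false

namespace Pool.Agent.LAY8

open Finset

theorem HasLayered.mono {a b m a' b' m' : ℕ} (h : HasLayered a b m) (ha : a ≤ a') (hb : b ≤ b')
    (hm : m' ≤ m) : HasLayered a' b' m' := by
  obtain ⟨A, B, c, h1, h2, h3⟩ := h
  refine ⟨fun i => A (Fin.castLE hm i), fun i => B (Fin.castLE hm i), c,
    ⟨fun i => h1.1 _, fun i j hij => h1.2 _ _ ?_⟩, fun i j hij => h2 _ _ ?_, fun i =>
      ⟨(h3 _).1.trans ha, (h3 _).2.trans hb⟩⟩
  · exact fun h => hij (Fin.castLE_injective hm h)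
  · exact fun h => hij (Fin.castLE_injective hm h)

/-- Composition of layered systems. -/
theorem comp {a1 b1 m1 a2 b2 m2 : ℕ} (h1 : HasLayered a1 b1 m1) (h2 : HasLayered a2 b2 m2) :
    HasLayered (a1 + a2) (b1 + b2) (m1 * m2) := by
  classical
  obtain ⟨A1, B1, c1, ⟨d1, o1⟩, l1, s1⟩ := h1
  obtain ⟨A2, B2, c2, ⟨d2, o2⟩, l2, s2⟩ := h2
  let f : ℕ → ℕ := fun x => 2 * x
  let g : ℕ → ℕ → ℕ := fun i y => 2 * Nat.pair i y + 1
  let A : Fin (m1 * m2) → Finset ℕ := fun k =>
    (A1 k.divNat).image f ∪ (A2 k.modNat).image (g k.divNat)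
  let B : Fin (m1 * m2) → Finset ℕ := fun k =>
    (B1 k.divNat).image f ∪ (B2 k.modNat).image (g k.divNat)
  let c : ℕ → ℕ := fun z => if z % 2 = 0 then 2 * c1 (z / 2)
    else 2 * c2 (Nat.unpair (z / 2)).2 + 1
  have hf : Function.Injective f := fun x y h => by
    have : 2 * x = 2 * y := h
    omega
  have hfg : ∀ x i y, f x ≠ g i y := fun x i y h => by
    have : 2 * x = 2 * Nat.pair i y + 1 := h
    omega
  have hgg : ∀ i y i' y', g i y = g i' y' → i = i' ∧ y = y' := fun i y i' y' h => by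
    have h' : 2 * Nat.pair i y + 1 = 2 * Nat.pair i' y' + 1 := h
    have : Nat.pair i y = Nat.pair i' y' := by omega
    exact Nat.pair_eq_pair.1 this
  have hcf : ∀ x, c (f x) = 2 * c1 x := fun x => by
    have e1 : (2 * x) % 2 = 0 := by omega
    have e2 : (2 * x) / 2 = x := by omega
    simp only [c, f, e1, e2, if_true]
  have hcg : ∀ i y, c (g i y) = 2 * c2 y + 1 := fun i y => by
    have e1 : ¬ (2 * Nat.pair i y + 1) % 2 = 0 := by omega
    have e2 : (2 * Nat.pair i y + 1) / 2 = Nat.pair i y := by omega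
    simp only [c, g, e1, e2, if_false, Nat.unpair_pair]
  -- membership in the intersections
  have inter : ∀ (X1 Y1 X2 Y2 : Finset ℕ) (i i' : ℕ) (z : ℕ),
      z ∈ (X1.image f ∪ X2.image (g i)) ∩ (Y1.image f ∪ Y2.image (g i')) ↔
      (∃ x ∈ X1 ∩ Y1, z = f x) ∨ (i = i' ∧ ∃ y ∈ X2 ∩ Y2, z = g i y) := by
    intro X1 Y1 X2 Y2 i i' z
    simp only [Finset.mem_inter, Finset.mem_union, Finset.mem_image]
    constructor
    · rintro ⟨⟨x, hx, rfl⟩ | ⟨x, hx, rfl⟩, ⟨y, hy, hyx⟩ | ⟨y, hy, hyx⟩⟩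
      · have := hf hyx
        subst this
        exact Or.inl ⟨y, ⟨hx, hy⟩, rfl⟩
      · exact absurd hyx.symm (hfg _ _ _)
      · exact absurd hyx (hfg _ _ _)
      · obtain ⟨e1, e2⟩ := hgg _ _ _ _ hyx
        subst e1
        subst e2
        exact Or.inr ⟨rfl, y, ⟨hx, hy⟩, rfl⟩
    · rintro (⟨x, ⟨hx, hy⟩, rfl⟩ | ⟨rfl, x, ⟨hx, hy⟩, rfl⟩)
      · exact ⟨Or.inl ⟨x, hx, rfl⟩, Or.inl ⟨x, hy, rfl⟩⟩
      · exact ⟨Or.inr ⟨x, hx, rfl⟩, Or.inr ⟨x, hy, rfl⟩⟩
  have hne : ∀ k k' : Fin (m1 * m2), k ≠ k' → k.divNat = k'.divNat → k.modNat ≠ k'.modNat := by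
    intro k k' hk h1 h2
    apply hk
    have : finProdFinEquiv.symm k = finProdFinEquiv.symm k' := by
      simp only [finProdFinEquiv, Equiv.coe_fn_symm_mk]
      exact Prod.ext h1 h2
    exact finProdFinEquiv.symm.injective this
  refine ⟨A, B, c, ⟨?_, ?_⟩, ?_, ?_⟩
  · intro k
    rw [Finset.disjoint_iff_inter_eq_empty, Finset.eq_empty_iff_forall_notMem]
    intro z hz
    rcases (inter _ _ _ _ _ _ z).1 hz with ⟨x, hx, _⟩ | ⟨_, y, hy, _⟩
    · rw [Finset.disjoint_iff_inter_eq_empty.1 (d1 _)] at hx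
      exact absurd hx (Finset.notMem_empty x)
    · rw [Finset.disjoint_iff_inter_eq_empty.1 (d2 _)] at hy
      exact absurd hy (Finset.notMem_empty y)
  · intro k k' hk
    by_cases hd : k.divNat = k'.divNat
    · obtain ⟨y, hy⟩ := Finset.card_eq_one.1 (o2 _ _ (hne k k' hk hd))
      refine Finset.card_eq_one.2 ⟨g k.divNat y, ?_⟩
      ext z
      rw [inter, Finset.mem_singleton]
      constructor
      · rintro (⟨x, hx, _⟩ | ⟨_, y', hy', rfl⟩)
        · rw [hd, Finset.disjoint_iff_inter_eq_empty.1 (d1 _)] at hx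
          exact absurd hx (Finset.notMem_empty x)
        · rw [hy, Finset.mem_singleton] at hy'
          rw [hy']
      · rintro rfl
        exact Or.inr ⟨by rw [hd], y, by rw [hy]; exact Finset.mem_singleton_self y, rfl⟩
    · obtain ⟨x, hx⟩ := Finset.card_eq_one.1 (o1 _ _ hd)
      refine Finset.card_eq_one.2 ⟨f x, ?_⟩
      ext z
      rw [inter, Finset.mem_singleton]
      constructor
      · rintro (⟨x', hx', rfl⟩ | ⟨e, _⟩)
        · rw [hx, Finset.mem_singleton] at hx'
          rw [hx']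
        · exact absurd (Fin.ext e) hd
      · rintro rfl
        exact Or.inl ⟨x, by rw [hx]; exact Finset.mem_singleton_self x, rfl⟩
  · intro k k' hk
    by_cases hd : k.divNat = k'.divNat
    · obtain ⟨l, p1, p2, p3⟩ := l2 _ _ (hne k k' hk hd)
      refine ⟨2 * l + 1, ?_, ?_, ?_⟩
      · intro z hz
        rcases (inter _ _ _ _ _ _ z).1 hz with ⟨x, hx, _⟩ | ⟨_, y, hy, rfl⟩
        · rw [hd, Finset.disjoint_iff_inter_eq_empty.1 (d1 _)] at hx
          exact absurd hx (Finset.notMem_empty x)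
        · rw [hcg, p1 y hy]
      · intro z hz
        rcases (inter _ _ _ _ _ _ z).1 hz with ⟨x, hx, _⟩ | ⟨_, y, hy, rfl⟩
        · rw [hd, Finset.disjoint_iff_inter_eq_empty.1 (d1 _)] at hx
          exact absurd hx (Finset.notMem_empty x)
        · rw [hcg, p2 y hy]
      · rcases p3 with p3 | p3
        · left
          intro z hz
          rcases (inter _ _ _ _ _ _ z).1 hz with ⟨x, hx, rfl⟩ | ⟨_, y, hy, rfl⟩
          · rw [hcf]
            omega
          · have := p3 y hy
            rw [hcg]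
            omega
        · right
          intro z hz
          rcases (inter _ _ _ _ _ _ z).1 hz with ⟨x, hx, rfl⟩ | ⟨_, y, hy, rfl⟩
          · rw [hcf]
            omega
          · have := p3 y hy
            rw [hcg]
            omega
    · obtain ⟨l, p1, p2, p3⟩ := l1 _ _ hd
      refine ⟨2 * l, ?_, ?_, ?_⟩
      · intro z hz
        rcases (inter _ _ _ _ _ _ z).1 hz with ⟨x, hx, rfl⟩ | ⟨e, _⟩
        · rw [hcf, p1 x hx]
        · exact absurd (Fin.ext e) hd
      · intro z hz
        rcases (inter _ _ _ _ _ _ z).1 hz with ⟨x, hx, rfl⟩ | ⟨e, _⟩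
        · rw [hcf, p2 x hx]
        · exact absurd (Fin.ext e).symm hd
      · rcases p3 with p3 | p3
        · left
          intro z hz
          rcases (inter _ _ _ _ _ _ z).1 hz with ⟨x, hx, rfl⟩ | ⟨e, _⟩
          · have := p3 x hx
            rw [hcf]
            omega
          · exact absurd (Fin.ext e) hd
        · right
          intro z hz
          rcases (inter _ _ _ _ _ _ z).1 hz with ⟨x, hx, rfl⟩ | ⟨e, _⟩
          · have := p3 x hx
            rw [hcf]
            omega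
          · exact absurd (Fin.ext e) hd
  · intro k
    constructor
    · calc (A k).card ≤ ((A1 k.divNat).image f).card + ((A2 k.modNat).image (g k.divNat)).card :=
            Finset.card_union_le _ _
        _ ≤ (A1 k.divNat).card + (A2 k.modNat).card :=
            Nat.add_le_add Finset.card_image_le Finset.card_image_le
        _ ≤ a1 + a2 := Nat.add_le_add (s1 _).1 (s2 _).1
    · calc (B k).card ≤ ((B1 k.divNat).image f).card + ((B2 k.modNat).image (g k.divNat)).card :=
            Finset.card_union_le _ _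
        _ ≤ (B1 k.divNat).card + (B2 k.modNat).card :=
            Nat.add_le_add Finset.card_image_le Finset.card_image_le
        _ ≤ b1 + b2 := Nat.add_le_add (s1 _).2 (s2 _).2

end Pool.Agent.LAY8
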