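import Pool.Agent.LAY8.Defs

set_option autoImplicit false

namespace Pool.Agent.LAY8

open Finset

theorem mod_eq {N x y : ℕ} (h : x % N = y % N) : (N : ℤ) ∣ (x : ℤ) - y :=
  (Nat.modEq_iff_dvd.1 (Eq.symm h : y ≡ x [MOD N]))

theorem small_dvd {N z : ℤ} (h : N ∣ z) (h1 : -N < z) (h2 : z < N) : z = 0 := by
  obtain ⟨k, hk⟩ := h
  have hN : 0 < N := by linarith
  have k1 : k < 1 := by
    by_contra hc
    have : 1 ≤ k := not_lt.1 hc
    nlinarith
  have k2 : -1 < k := by
    by_contra hc
    have : k ≤ -1 := not_lt.1 hc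
    nlinarith
  have : k = 0 := by omega
  rw [hk, this, mul_zero]

/-- The near factorisation of the cyclic group of order `1 + a * b`. -/
theorem near (a b : ℕ) : HasLayered a b (1 + a * b) := by
  classical
  set N : ℕ := 1 + a * b with hN
  have hNpos : 0 < N := by omega
  let A : Fin N → Finset ℕ := fun i => (Finset.range a).image fun u => ((i : ℕ) + u) % N
  let B : Fin N → Finset ℕ := fun i => (Finset.Icc 1 b).image fun v => ((i : ℕ) + v * a) % N
  have hA : ∀ (i : Fin N) x, x ∈ A i ↔ ∃ u, u < a ∧ ((i : ℕ) + u) % N = x := by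
    intro i x
    simp only [A, Finset.mem_image, Finset.mem_range]
  have hB : ∀ (i : Fin N) x, x ∈ B i ↔ ∃ v, (1 ≤ v ∧ v ≤ b) ∧ ((i : ℕ) + v * a) % N = x := by
    intro i x
    simp only [B, Finset.mem_image, Finset.mem_Icc]
  -- range of `v a - u`
  have hr : ∀ u v : ℕ, u < a → 1 ≤ v → v ≤ b →
      (1 : ℤ) ≤ (v : ℤ) * a - u ∧ (v : ℤ) * a - u < N := by
    intro u v hu h1 h2
    have e1 : a ≤ v * a := Nat.le_mul_of_pos_left a h1
    have e2 : v * a ≤ b * a := Nat.mul_le_mul_right a h2
    have e3 : b * a = a * b := mul_comm b a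
    constructor
    · have : u + 1 ≤ v * a := by omega
      have : (u : ℤ) + 1 ≤ (v : ℤ) * a := by exact_mod_cast this
      linarith
    · have : v * a < N := by omega
      have : (v : ℤ) * a < N := by exact_mod_cast this
      linarith
  -- uniqueness of the representation `v a - u`
  have huniq : ∀ u v u' v' : ℕ, u < a → u' < a → (v : ℤ) * a - u = (v' : ℤ) * a - u' →
      v = v' ∧ u = u' := by
    intro u v u' v' hu hu' h
    have hapos : (0 : ℤ) < a := by omega
    have h1 : ((v : ℤ) - v') * a = u - u' := by linarith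
    have h2 : (v : ℤ) - v' < 1 := by
      by_contra hc
      have : 1 ≤ (v : ℤ) - v' := not_lt.1 hc
      have : (a : ℤ) ≤ ((v : ℤ) - v') * a := by nlinarith
      omega
    have h3 : -1 < (v : ℤ) - v' := by
      by_contra hc
      have : (v : ℤ) - v' ≤ -1 := not_lt.1 hc
      have : ((v : ℤ) - v') * a ≤ -a := by nlinarith
      omega
    have h4 : (v : ℤ) - v' = 0 := by omega
    rw [h4, zero_mul] at h1
    constructor <;> omega
  refine ⟨A, B, fun _ => 0, ⟨?_, ?_⟩, ?_, ?_⟩
  · intro i
    rw [Finset.disjoint_left]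
    intro x hx hx'
    obtain ⟨u, hu, rfl⟩ := (hA i x).1 hx
    obtain ⟨v, ⟨hv1, hv2⟩, hv⟩ := (hB i _).1 hx'
    have h1 := mod_eq hv
    push_cast at h1
    obtain ⟨r1, r2⟩ := hr u v hu hv1 hv2
    have h2 := small_dvd (z := (v : ℤ) * a - u)
      (by
        have : ((i : ℕ) : ℤ) + v * a - ((i : ℕ) + u) = (v : ℤ) * a - u := by ring
        rwa [this] at h1) (by omega) r2
    omega
  · intro i j hij
    apply le_antisymm
    · rw [Finset.card_le_one]
      intro x hx y hy
      rw [Finset.mem_inter] at hx hy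
      obtain ⟨u, hu, hux⟩ := (hA i x).1 hx.1
      obtain ⟨v, ⟨hv1, hv2⟩, hvx⟩ := (hB j x).1 hx.2
      obtain ⟨u', hu', huy⟩ := (hA i y).1 hy.1
      obtain ⟨v', ⟨hv1', hv2'⟩, hvy⟩ := (hB j y).1 hy.2
      have d1 := mod_eq (hvx.trans hux.symm)
      have d2 := mod_eq (hvy.trans huy.symm)
      push_cast at d1 d2
      have d3 := dvd_sub d1 d2
      obtain ⟨r1, r2⟩ := hr u v hu hv1 hv2
      obtain ⟨r3, r4⟩ := hr u' v' hu' hv1' hv2'
      have d5 : (N : ℤ) ∣ ((v : ℤ) * a - u) - ((v' : ℤ) * a - u') := by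
        have e : ((v : ℤ) * a - u) - ((v' : ℤ) * a - u') =
            ((j : ℕ) + (v : ℤ) * a - ((i : ℕ) + u)) -
            ((j : ℕ) + (v' : ℤ) * a - ((i : ℕ) + u')) := by ring
        rw [e]
        exact d3
      have h0 := small_dvd d5 (by omega) (by omega)
      obtain ⟨_, e2⟩ := huniq u v u' v' hu hu' (by linarith)
      rw [← hux, ← huy, e2]
    · rw [Nat.succ_le_iff, Finset.card_pos]
      -- existence
      obtain ⟨r, hr0⟩ : ∃ r, r = ((i : ℕ) + N - j) % N := ⟨_, rfl⟩
      have hi := i.isLt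
      have hj := j.isLt
      have hijv : (i : ℕ) ≠ j := fun h => hij (Fin.ext h)
      have hrN : r < N := by
        rw [hr0]
        exact Nat.mod_lt _ hNpos
      have hrcase : ((r : ℤ) = i - j ∨ (r : ℤ) = i - j + N) := by
        rcases Nat.lt_or_ge i j with h | h
        · right
          have : r = (i : ℕ) + N - j := by
            rw [hr0]
            exact Nat.mod_eq_of_lt (by omega)
          omega
        · left
          have e : (i : ℕ) + N - j = (i - j) + N := by omega
          have : r = (i : ℕ) - j := by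
            rw [hr0, e, Nat.add_mod_right]
            exact Nat.mod_eq_of_lt (by omega)
          omega
      have hrpos : 1 ≤ r := by omega
      have hrab : r ≤ a * b := by omega
      have hapos : 0 < a := by
        rcases Nat.eq_zero_or_pos a with h | h
        · rw [h, zero_mul] at hrab
          omega
        · exact h
      -- v = ceil (r / a), u = v a - r
      obtain ⟨q, t, hq, ht⟩ : ∃ q t, r - 1 = a * q + t ∧ t < a :=
        ⟨(r - 1) / a, (r - 1) % a, (Nat.div_add_mod _ _).symm, Nat.mod_lt _ hapos⟩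
      have hqb : q < b := by
        by_contra hc
        have : b ≤ q := not_lt.1 hc
        have : a * b ≤ a * q := Nat.mul_le_mul_left a this
        omega
      refine ⟨((i : ℕ) + (a - 1 - t)) % N, Finset.mem_inter.2 ⟨?_, ?_⟩⟩
      · exact (hA i _).2 ⟨a - 1 - t, by omega, rfl⟩
      · refine (hB j _).2 ⟨q + 1, ⟨by omega, by omega⟩, ?_⟩
        have hr2 : r = a * q + t + 1 := by omega
        have e1 : (q + 1) * a = r + (a - 1 - t) := by
          have : (q + 1) * a = a * q + a := by ring
          omega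
        rw [e1]
        rcases hrcase with h | h
        · have : (j : ℕ) + (r + (a - 1 - t)) = (i : ℕ) + (a - 1 - t) := by omega
          rw [this]
        · have : (j : ℕ) + (r + (a - 1 - t)) = ((i : ℕ) + (a - 1 - t)) + N := by omega
          rw [this, Nat.add_mod_right]
  · intro i j hij
    refine ⟨0, fun _ _ => rfl, fun _ _ => rfl, ?_⟩
    by_contra hcon
    push Not at hcon
    obtain ⟨⟨x, hx, _⟩, ⟨y, hy, _⟩⟩ := hcon
    rw [Finset.mem_inter] at hx hy
    obtain ⟨u, hu, hux⟩ := (hA i x).1 hx.1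
    obtain ⟨u', hu', hux'⟩ := (hA j x).1 hx.2
    obtain ⟨v, ⟨hv1, hv2⟩, hvy⟩ := (hB i y).1 hy.1
    obtain ⟨v', ⟨hv1', hv2'⟩, hvy'⟩ := (hB j y).1 hy.2
    have d1 := mod_eq (hux.trans hux'.symm)
    have d2 := mod_eq (hvy.trans hvy'.symm)
    push_cast at d1 d2
    have d3 := dvd_sub d2 d1
    obtain ⟨r1, r2⟩ := hr u v hu hv1 hv2
    obtain ⟨r3, r4⟩ := hr u' v' hu' hv1' hv2'
    have d5 : (N : ℤ) ∣ ((v : ℤ) * a - u) - ((v' : ℤ) * a - u') := by
      have e : ((v : ℤ) * a - u) - ((v' : ℤ) * a - u') =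
          ((i : ℕ) + (v : ℤ) * a - ((j : ℕ) + (v' : ℤ) * a)) -
          ((i : ℕ) + (u : ℤ) - ((j : ℕ) + u')) := by ring
      rw [e]
      exact d3
    have h0 := small_dvd d5 (by omega) (by omega)
    obtain ⟨_, e2⟩ := huniq u v u' v' hu hu' (by linarith)
    subst e2
    have d4 := small_dvd (N := (N : ℤ)) (z := ((i : ℕ) : ℤ) - (j : ℕ))
      (by
        convert d1 using 1
        ring) (by have := i.isLt; have := j.isLt; omega)
      (by have := i.isLt; have := j.isLt; omega)
    exact hij (Fin.ext (by omega))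
  · intro i
    constructor
    · exact Finset.card_image_le.trans (by rw [Finset.card_range])
    · exact Finset.card_image_le.trans (by rw [Nat.card_Icc]; omega)

end Pool.Agent.LAY8
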