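import Pool.Agent.LAY8.Core
import Pool.Agent.LAY8.Defs

set_option autoImplicit false

namespace Pool.Agent.LAY8

open Finset

theorem sum_ind (N : ℕ) (P Q : ℕ → Prop) [DecidablePred P] [DecidablePred Q] (S : Finset ℕ)
    (hS : ∀ x, x ∈ S ↔ P x ∧ Q x) (hN : ∀ x ∈ S, x < N) :
    ∑ x : Fin N, (if P x then (1 : ℝ) else 0) * (if Q x then (1 : ℝ) else 0) = S.card := by
  rw [Fin.sum_univ_eq_sum_range
    (fun x => (if P x then (1 : ℝ) else 0) * (if Q x then (1 : ℝ) else 0)) N]
  have h1 : ∀ x ∈ Finset.range N,
      (if P x then (1 : ℝ) else 0) * (if Q x then (1 : ℝ) else 0) =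
        if x ∈ S then (1 : ℝ) else 0 := by
    intro x _
    by_cases hP : P x
    · by_cases hQ : Q x
      · simp [hP, hQ, (hS x).2 ⟨hP, hQ⟩]
      · have : x ∉ S := fun h => hQ ((hS x).1 h).2
        simp [hQ, this]
    · have : x ∉ S := fun h => hP ((hS x).1 h).1
      simp [hP, this]
  rw [Finset.sum_congr rfl h1, Finset.sum_boole]
  congr 2
  ext x
  simp only [Finset.mem_filter, Finset.mem_range]
  exact ⟨fun h => h.2, fun h => ⟨hN x h, h⟩⟩

/-- The Kraft type inequality for layered systems. -/
theorem kraft {ι : Type} [Fintype ι] [DecidableEq ι] (A B : ι → Finset ℕ) (c : ℕ → ℕ)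
    (h1 : OneCross A B) (h2 : Layering A B c) :
    ∑ i, 1 / ∏ l ∈ (A i).image c,
      (1 + (((A i).filter fun x => c x = l).card : ℝ) *
        (((B i).filter fun x => c x = l).card : ℝ)) ≤ 1 := by
  classical
  -- a bound for all elements and colours
  obtain ⟨N, hN⟩ : ∃ N : ℕ, ∀ i, ∀ x ∈ A i ∪ B i, x < N ∧ c x < N := by
    let V : Finset ℕ := Finset.univ.biUnion fun i => A i ∪ B i
    refine ⟨(V.sup id) + (V.sup c) + 1, fun i x hx => ?_⟩
    have hxV : x ∈ V := Finset.mem_biUnion.2 ⟨i, Finset.mem_univ i, hx⟩
    have e1 : x ≤ V.sup id := Finset.le_sup (f := id) hxV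
    have e2 : c x ≤ V.sup c := Finset.le_sup (f := c) hxV
    omega
  have hAN : ∀ i, ∀ x ∈ A i, x < N ∧ c x < N := fun i x hx =>
    hN i x (Finset.mem_union_left _ hx)
  have hBN : ∀ i, ∀ x ∈ B i, x < N ∧ c x < N := fun i x hx =>
    hN i x (Finset.mem_union_right _ hx)
  let a : ι → Fin N → Fin N → ℝ := fun i l x => if (x : ℕ) ∈ A i ∧ c x = l then 1 else 0
  let b : ι → Fin N → Fin N → ℝ := fun i l x => if (x : ℕ) ∈ B i ∧ c x = l then 1 else 0
  have haa : ∀ i j l, ∑ x, a i l x * a j l x =
      (((A i ∩ A j).filter fun x => c x = l).card : ℝ) := by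
    intro i j l
    refine sum_ind N (fun x => x ∈ A i ∧ c x = l) (fun x => x ∈ A j ∧ c x = l) _ ?_ ?_
    · intro x
      simp only [Finset.mem_filter, Finset.mem_inter]
      tauto
    · intro x hx
      simp only [Finset.mem_filter, Finset.mem_inter] at hx
      exact (hAN i x hx.1.1).1
  have hbb : ∀ i j l, ∑ x, b i l x * b j l x =
      (((B i ∩ B j).filter fun x => c x = l).card : ℝ) := by
    intro i j l
    refine sum_ind N (fun x => x ∈ B i ∧ c x = l) (fun x => x ∈ B j ∧ c x = l) _ ?_ ?_
    · intro x
      simp only [Finset.mem_filter, Finset.mem_inter]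
      tauto
    · intro x hx
      simp only [Finset.mem_filter, Finset.mem_inter] at hx
      exact (hBN i x hx.1.1).1
  have hab : ∀ i j l, ∑ x, a i l x * b j l x =
      (((A i ∩ B j).filter fun x => c x = l).card : ℝ) := by
    intro i j l
    refine sum_ind N (fun x => x ∈ A i ∧ c x = l) (fun x => x ∈ B j ∧ c x = l) _ ?_ ?_
    · intro x
      simp only [Finset.mem_filter, Finset.mem_inter]
      tauto
    · intro x hx
      simp only [Finset.mem_filter, Finset.mem_inter] at hx
      exact (hAN i x hx.1.1).1
  have hba : ∀ i j l, ∑ x, b i l x * a j l x =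
      (((A j ∩ B i).filter fun x => c x = l).card : ℝ) := by
    intro i j l
    rw [← hab j i l]
    exact Finset.sum_congr rfl fun x _ => mul_comm _ _
  have key := core a b
    (by
      intro i l
      rw [hab i i l, Finset.disjoint_iff_inter_eq_empty.1 (h1.1 i)]
      simp)
    (by
      intro i j hij
      obtain ⟨l, hl1, hl2, hl3⟩ := h2 i j hij
      -- the colour is below N
      obtain ⟨x, hx⟩ := Finset.card_eq_one.1 (h1.2 i j hij)
      have hxm : x ∈ A i ∩ B j := by rw [hx]; exact Finset.mem_singleton_self x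
      have hlN : l < N := by
        rw [← hl1 x hxm]
        exact (hAN i x (Finset.mem_inter.1 hxm).1).2
      refine ⟨⟨l, hlN⟩, ?_⟩
      rw [haa, hbb, hab, hba]
      have e1 : ((A i ∩ B j).filter fun x => c x = l) = A i ∩ B j :=
        Finset.filter_true_of_mem hl1
      have e2 : ((A j ∩ B i).filter fun x => c x = l) = A j ∩ B i :=
        Finset.filter_true_of_mem hl2
      have e3 : ((A i ∩ A j).filter fun x => c x = l).card *
          ((B i ∩ B j).filter fun x => c x = l).card = 0 := by
        rcases hl3 with h | h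
        · rw [Finset.filter_false_of_mem h]
          simp
        · rw [Finset.filter_false_of_mem h]
          simp
      have e3' : ((((A i ∩ A j).filter fun x => c x = l).card : ℝ)) *
          (((B i ∩ B j).filter fun x => c x = l).card : ℝ) = 0 := by
        exact_mod_cast e3
      rw [e3', e1, e2, h1.2 i j hij, h1.2 j i (Ne.symm hij)]
      norm_num)
  refine le_trans (le_of_eq ?_) key
  refine Finset.sum_congr rfl fun i _ => ?_
  congr 1
  -- compare the products
  have hF : ∀ l : Fin N, (1 + (∑ x, a i l x * a i l x) * (∑ y, b i l y * b i l y)) =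
      (fun l : ℕ => (1 + (((A i).filter fun x => c x = l).card : ℝ) *
        (((B i).filter fun x => c x = l).card : ℝ))) (l : ℕ) := by
    intro l
    rw [haa, hbb, Finset.inter_self, Finset.inter_self]
  rw [Finset.prod_congr rfl fun l _ => hF l]
  rw [Fin.prod_univ_eq_prod_range (fun l : ℕ => (1 + (((A i).filter fun x => c x = l).card : ℝ) *
        (((B i).filter fun x => c x = l).card : ℝ))) N]
  refine Finset.prod_subset ?_ ?_
  · intro l hl
    obtain ⟨x, hx, rfl⟩ := Finset.mem_image.1 hl
    exact Finset.mem_range.2 (hAN i x hx).2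
  · intro l _ hl
    have : (A i).filter (fun x => c x = l) = ∅ := by
      apply Finset.filter_false_of_mem
      intro x hx hc
      exact hl (Finset.mem_image.2 ⟨x, hx, hc⟩)
    rw [this]
    simp

/-- Some index has a large product. -/
theorem exists_large {ι : Type} [Fintype ι] [DecidableEq ι] (A B : ι → Finset ℕ) (c : ℕ → ℕ)
    (h1 : OneCross A B) (h2 : Layering A B c) (hne : Nonempty ι) :
    ∃ i, Fintype.card ι ≤ ∏ l ∈ (A i).image c,
      (1 + ((A i).filter fun x => c x = l).card * ((B i).filter fun x => c x = l).card) := by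
  classical
  by_contra hcon
  push Not at hcon
  have hk := kraft A B c h1 h2
  have hpos : (0 : ℝ) < Fintype.card ι := by exact_mod_cast Fintype.card_pos
  have hlt : ∑ i : ι, (1 : ℝ) / Fintype.card ι <
      ∑ i, 1 / ∏ l ∈ (A i).image c,
      (1 + (((A i).filter fun x => c x = l).card : ℝ) *
        (((B i).filter fun x => c x = l).card : ℝ)) := by
    refine Finset.sum_lt_sum_of_nonempty Finset.univ_nonempty fun i _ => ?_
    have h3 := hcon i
    have h4 : (∏ l ∈ (A i).image c, (1 + (((A i).filter fun x => c x = l).card : ℝ) *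
        (((B i).filter fun x => c x = l).card : ℝ))) < Fintype.card ι := by
      exact_mod_cast h3
    have h5 : 0 < (∏ l ∈ (A i).image c, (1 + (((A i).filter fun x => c x = l).card : ℝ) *
        (((B i).filter fun x => c x = l).card : ℝ))) :=
      Finset.prod_pos fun l _ => by positivity
    exact one_div_lt_one_div_of_lt h5 h4
  rw [Finset.sum_const, Finset.card_univ, nsmul_eq_mul, mul_one_div_cancel hpos.ne'] at hlt
  linarith

/-- Upper half of the characterisation. -/
theorem upper {a b m : ℕ} (h : HasLayered a b m) : ∃ L : List (ℕ × ℕ),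
    (L.map Prod.fst).sum ≤ a ∧ (L.map Prod.snd).sum ≤ b ∧
      m ≤ (L.map fun p => 1 + p.1 * p.2).prod := by
  classical
  rcases Nat.eq_zero_or_pos m with rfl | hm
  · exact ⟨[], by simp, by simp, by simp⟩
  obtain ⟨A, B, c, h1, h2, h3⟩ := h
  have : Nonempty (Fin m) := ⟨⟨0, hm⟩⟩
  obtain ⟨i, hi⟩ := exists_large A B c h1 h2 inferInstance
  rw [Fintype.card_fin] at hi
  refine ⟨((A i).image c).toList.map fun l =>
    (((A i).filter fun x => c x = l).card, ((B i).filter fun x => c x = l).card), ?_, ?_, ?_⟩
  · rw [List.map_map]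
    have : (((A i).image c).toList.map (Prod.fst ∘ fun l =>
        (((A i).filter fun x => c x = l).card, ((B i).filter fun x => c x = l).card))).sum =
        ∑ l ∈ (A i).image c, ((A i).filter fun x => c x = l).card := by
      exact Finset.sum_map_toList _ _
    rw [this, ← Finset.card_eq_sum_card_image]
    exact (h3 i).1
  · rw [List.map_map]
    have : (((A i).image c).toList.map (Prod.snd ∘ fun l =>
        (((A i).filter fun x => c x = l).card, ((B i).filter fun x => c x = l).card))).sum =
        ∑ l ∈ (A i).image c, ((B i).filter fun x => c x = l).card := by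
      exact Finset.sum_map_toList _ _
    rw [this]
    refine le_trans ?_ (h3 i).2
    rw [← Finset.card_biUnion]
    · apply Finset.card_le_card
      intro x hx
      obtain ⟨l, _, hl⟩ := Finset.mem_biUnion.1 hx
      exact (Finset.mem_filter.1 hl).1
    · intro l _ l' _ hll
      rw [Function.onFun, Finset.disjoint_left]
      intro x hx hx'
      exact hll (((Finset.mem_filter.1 hx).2).symm.trans (Finset.mem_filter.1 hx').2)
  · rw [List.map_map]
    have : (((A i).image c).toList.map ((fun p : ℕ × ℕ => 1 + p.1 * p.2) ∘ fun l =>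
        (((A i).filter fun x => c x = l).card, ((B i).filter fun x => c x = l).card))).prod =
        ∏ l ∈ (A i).image c, (1 + ((A i).filter fun x => c x = l).card *
          ((B i).filter fun x => c x = l).card) := by
      exact Finset.prod_map_toList _ _
    rw [this]
    exact hi

end Pool.Agent.LAY8
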